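import Pool.Agent.E8helper28.GB.All
import Pool.Agent.R521.GG.V2
import Pool.Agent.R521.GG.Chen

set_option autoImplicit false

/-!
# Goldbach graphs: every vertex, with one almost prime at the few exceptional vertices

For all `U` and all large `n` there is a set `E` of at most `n / (log n) ^ U` numbers such that the
finite Goldbach graph `G_n` and the finite near Goldbach graph `G(n)` become connected, with all
distances at most `7`, if only the following edges are added: the edges with an endpoint in `E` for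
which one of the two primes is replaced by an odd number with at most two prime factors (Chen's
theorem). Both ways of choosing the prime which is replaced are possible. No vertex is excluded.

This rests on project GB of helper66: outside few vertices the graphs have diameter five.
-/

namespace Pool.Agent.Results.MP_443e5f_co.AllVerticesH28

open Finset
open Pool.Agent.R521.GG (R dist_two' sum_two)
open Pool.Agent.E8helper28.GB (chen_attach conn_seven S_X5)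

/-- `m` is an odd prime less than `2 n`. -/
def OddPrimeBelow (n m : ℕ) : Prop := m.Prime ∧ Odd m ∧ m < 2 * n

/-- `m` is odd, and a prime or the product of two (not necessarily distinct) primes. -/
def OddSemi (m : ℕ) : Prop := Odd m ∧ (m.Prime ∨ ∃ p q : ℕ, p.Prime ∧ q.Prime ∧ m = p * q)

/-- The finite Goldbach graph `G_n` on `{0, 2, 4, …, 2 n}`: distinct `a`, `b` are adjacent iff
`(a + b)/2` and `|a - b|/2` are odd primes less than `2 n`. -/
def goldbach (n : ℕ) : SimpleGraph {a : ℕ // Even a ∧ a ≤ 2 * n} where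
  Adj a b := a ≠ b ∧ OddPrimeBelow n (((a : ℕ) + b) / 2) ∧ OddPrimeBelow n (Nat.dist a b / 2)
  symm := ⟨fun a b h => ⟨h.1.symm, by rw [add_comm (b : ℕ)]; exact h.2.1,
    by rw [Nat.dist_comm]; exact h.2.2⟩⟩
  loopless := ⟨fun _ h => h.1 rfl⟩

/-- The finite near Goldbach graph `G(n)` on `{2, 4, …, 2 n}`: distinct `a`, `b` are adjacent iff
each of `(a + b)/2` and `|a - b|/2` is `1` or an odd prime less than `2 n`. -/
def nearGoldbach (n : ℕ) : SimpleGraph {a : ℕ // Even a ∧ 2 ≤ a ∧ a ≤ 2 * n} where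
  Adj a b := a ≠ b ∧ (((a : ℕ) + b) / 2 = 1 ∨ OddPrimeBelow n (((a : ℕ) + b) / 2)) ∧
    (Nat.dist a b / 2 = 1 ∨ OddPrimeBelow n (Nat.dist a b / 2))
  symm := ⟨fun a b h => ⟨h.1.symm, by rw [add_comm (b : ℕ)]; exact h.2.1,
    by rw [Nat.dist_comm]; exact h.2.2⟩⟩
  loopless := ⟨fun _ h => h.1 rfl⟩

/-- The graph `G` with additional edges: `a` and `b` are also adjacent if one of them lies in `E`,
`|a - b|/2` is an odd prime and `(a + b)/2` is an odd prime or a product of two odd primes. -/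
def addDiff {P : ℕ → Prop} (G : SimpleGraph {a : ℕ // P a}) (E : Set ℕ) : SimpleGraph {a : ℕ // P a} where
  Adj a b := G.Adj a b ∨ (((a : ℕ) ∈ E ∨ (b : ℕ) ∈ E) ∧ ((Nat.dist a b / 2).Prime ∧ Odd (Nat.dist a b / 2)) ∧
    OddSemi (((a : ℕ) + b) / 2))
  symm := ⟨fun a b h => h.elim (fun h => Or.inl h.symm) (fun h => Or.inr ⟨h.1.symm,
    by rw [Nat.dist_comm]; exact h.2.1, by rw [add_comm (b : ℕ)]; exact h.2.2⟩)⟩
  loopless := ⟨fun a h => h.elim (fun h => h.ne rfl) (fun h => by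
    have h1 := h.2.1.1
    rw [Nat.dist_self] at h1
    exact Nat.not_prime_zero h1)⟩

/-- The graph `G` with additional edges: `a` and `b` are also adjacent if they are distinct, one of them lies
in `E`, `(a + b)/2` is an odd prime and `|a - b|/2` is an odd prime or a product of two odd primes. -/
def addSum {P : ℕ → Prop} (G : SimpleGraph {a : ℕ // P a}) (E : Set ℕ) : SimpleGraph {a : ℕ // P a} where
  Adj a b := G.Adj a b ∨ (((a : ℕ) ∈ E ∨ (b : ℕ) ∈ E) ∧ ((((a : ℕ) + b) / 2).Prime ∧ Odd (((a : ℕ) + b) / 2)) ∧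
    OddSemi (Nat.dist a b / 2))
  symm := ⟨fun a b h => h.elim (fun h => Or.inl h.symm) (fun h => Or.inr ⟨h.1.symm,
    by rw [add_comm (b : ℕ)]; exact h.2.1, by rw [Nat.dist_comm]; exact h.2.2⟩)⟩
  loopless := ⟨fun a h => h.elim (fun h => h.ne rfl) (fun h => by
    have h1 := h.2.2.1
    rw [Nat.dist_self] at h1
    exact absurd h1 (by decide))⟩

/-- `G` is connected and any two vertices are at a distance of at most `7`. -/
def Seven {V : Type} (G : SimpleGraph V) : Prop := G.Connected ∧ ∀ u v, G.dist u v ≤ 7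

lemma small_dist {n a b : ℕ} (ha : 1 ≤ a) (hb : 1 ≤ b) (han : a ≤ n) (hbn : b ≤ n) : Nat.dist a b < 2 * n := by
  simp only [Nat.dist]
  omega

lemma ne_of_R {a b : ℕ} (h : R a b) : a ≠ b := by
  rintro rfl
  have h1 := h.2.1
  rw [Nat.dist_self] at h1
  exact Nat.not_prime_zero h1

theorem main (hX5 : S_X5) (U : ℕ) : ∃ N : ℕ, ∀ n : ℕ, N ≤ n → ∃ E : Finset ℕ, (E.card : ℝ) ≤ n / Real.log n ^ U ∧
    ∀ E' : Set ℕ, (E : Set ℕ) ⊆ E' →
      Seven (addDiff (goldbach n) E') ∧ Seven (addSum (goldbach n) E') ∧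
      Seven (addDiff (nearGoldbach n) E') ∧ Seven (addSum (nearGoldbach n) E') := by
  classical
  obtain ⟨N, hN⟩ := chen_attach hX5 (R521.GG.t_chenD R521.GG.t_prodV) (R521.GG.t_chenS R521.GG.t_prodV) U
  refine ⟨N, fun n hn => ?_⟩
  obtain ⟨X, hX, hXc, hne, hp, ⟨q, hqX, hq, hq2⟩, hD, hS⟩ := hN n hn
  have hXr : ∀ a ∈ X, 1 ≤ a ∧ a ≤ n := fun a ha => mem_Icc.1 (hX ha)
  refine ⟨insert 0 ((Icc 1 n \ X).image (fun a => 2 * a)), ?_, fun E' hE' => ?_⟩
  · refine le_trans ?_ hXc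
    have h1 : (insert 0 ((Icc 1 n \ X).image (fun a => 2 * a))).card ≤ (Icc 1 n \ X).card + 1 :=
      (card_insert_le _ _).trans (Nat.add_le_add_right card_image_le 1)
    exact_mod_cast h1
  have hE0 : (0 : ℕ) ∈ E' := hE' (by
    rw [mem_coe]
    exact mem_insert_self _ _)
  have hE1 : ∀ a, 1 ≤ a → a ≤ n → a ∉ X → 2 * a ∈ E' := by
    intro a h1 h2 h3
    apply hE'
    rw [mem_coe, mem_insert, mem_image]
    right
    exact ⟨a, by rw [mem_sdiff, mem_Icc]; exact ⟨⟨h1, h2⟩, h3⟩, rfl⟩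
  have hqn := hXr q hqX
  -- the vertices of the two graphs
  have hv1 : ∀ v : {a : ℕ // Even a ∧ a ≤ 2 * n}, v.1 = 2 * (v.1 / 2) ∧ v.1 / 2 ≤ n := by
    intro v
    obtain ⟨⟨k, hk⟩, h2⟩ := v.2
    omega
  have hv2 : ∀ v : {a : ℕ // Even a ∧ 2 ≤ a ∧ a ≤ 2 * n}, v.1 = 2 * (v.1 / 2) ∧ 1 ≤ v.1 / 2 ∧ v.1 / 2 ≤ n := by
    intro v
    obtain ⟨⟨k, hk⟩, h2⟩ := v.2
    omega
  obtain ⟨φ₁, hφ₁⟩ : ∃ φ : ℕ → {a : ℕ // Even a ∧ a ≤ 2 * n}, ∀ m ≤ n, (φ m).1 = 2 * m :=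
    ⟨fun m => if hm : m ≤ n then ⟨2 * m, even_two_mul m, by omega⟩ else ⟨0, ⟨0, rfl⟩, by omega⟩, fun m hm => by
      simp only [hm, dif_pos]⟩
  have hn1 : 1 ≤ n := hqn.1.trans hqn.2
  obtain ⟨φ₂, hφ₂⟩ : ∃ φ : ℕ → {a : ℕ // Even a ∧ 2 ≤ a ∧ a ≤ 2 * n}, ∀ m, 1 ≤ m → m ≤ n → (φ m).1 = 2 * m :=
    ⟨fun m => if hm : 1 ≤ m ∧ m ≤ n then ⟨2 * m, even_two_mul m, by omega, by omega⟩ else
      ⟨2, even_two, le_rfl, by omega⟩, fun m hm1 hm2 => by
      simp only [hm1, hm2, and_self, dif_pos]⟩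
  have hR1 : ∀ a b, a ∈ X → b ∈ X → R a b → (goldbach n).Adj (φ₁ a) (φ₁ b) := by
    intro a b ha hb h
    obtain ⟨ha1, ha2⟩ := hXr a ha
    obtain ⟨hb1, hb2⟩ := hXr b hb
    have hab := ne_of_R h
    refine ⟨?_, ?_, ?_⟩
    · intro hc
      have := congrArg Subtype.val hc
      rw [hφ₁ a ha2, hφ₁ b hb2] at this
      omega
    · rw [hφ₁ a ha2, hφ₁ b hb2, sum_two]
      exact ⟨h.1.1, h.1.2, by omega⟩
    · rw [hφ₁ a ha2, hφ₁ b hb2, dist_two']
      exact ⟨h.2.1, h.2.2, small_dist ha1 hb1 ha2 hb2⟩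
  have hR2 : ∀ a b, a ∈ X → b ∈ X → R a b → (nearGoldbach n).Adj (φ₂ a) (φ₂ b) := by
    intro a b ha hb h
    obtain ⟨ha1, ha2⟩ := hXr a ha
    obtain ⟨hb1, hb2⟩ := hXr b hb
    have hab := ne_of_R h
    refine ⟨?_, Or.inr ?_, Or.inr ?_⟩
    · intro hc
      have := congrArg Subtype.val hc
      rw [hφ₂ a ha1 ha2, hφ₂ b hb1 hb2] at this
      omega
    · rw [hφ₂ a ha1 ha2, hφ₂ b hb1 hb2, sum_two]
      exact ⟨h.1.1, h.1.2, by omega⟩
    · rw [hφ₂ a ha1 ha2, hφ₂ b hb1 hb2, dist_two']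
      exact ⟨h.2.1, h.2.2, small_dist ha1 hb1 ha2 hb2⟩
  have hf1 : ∀ v : {a : ℕ // Even a ∧ a ≤ 2 * n}, φ₁ (v.1 / 2) = v := by
    intro v
    apply Subtype.ext
    rw [hφ₁ _ (hv1 v).2]
    exact (hv1 v).1.symm
  have hf2 : ∀ v : {a : ℕ // Even a ∧ 2 ≤ a ∧ a ≤ 2 * n}, φ₂ (v.1 / 2) = v := by
    intro v
    apply Subtype.ext
    rw [hφ₂ _ (hv2 v).2.1 (hv2 v).2.2]
    exact (hv2 v).1.symm
  refine ⟨?_, ?_, ?_, ?_⟩
  · refine conn_seven (addDiff (goldbach n) E') X φ₁ (fun v => v.1 / 2) hf1 hne hp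
      (fun a b ha hb h => Or.inl (hR1 a b ha hb h)) (fun v hv => ?_)
    obtain ⟨e1, e2⟩ := hv1 v
    rcases Nat.eq_zero_or_pos (v.1 / 2) with h0 | h0
    · refine ⟨q, hqX, Or.inr ⟨Or.inl ?_, ?_, ?_⟩⟩
      · rw [e1, h0]
        exact hE0
      · rw [e1, h0, hφ₁ q hqn.2, dist_two']
        have h3 : Nat.dist 0 q = q := by simp [Nat.dist]
        rw [h3]
        exact ⟨hq, hq2⟩
      · rw [e1, h0, hφ₁ q hqn.2, sum_two, zero_add]
        exact ⟨hq2, Or.inl hq⟩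
    · obtain ⟨b, hb, -, h1, h2⟩ := hD (v.1 / 2) (mem_Icc.2 ⟨h0, e2⟩)
      refine ⟨b, hb, Or.inr ⟨Or.inl ?_, ?_, ?_⟩⟩
      · rw [e1]
        exact hE1 _ h0 e2 hv
      · rw [e1, hφ₁ b (hXr b hb).2, dist_two']
        exact h1
      · rw [e1, hφ₁ b (hXr b hb).2, sum_two]
        exact h2
  · refine conn_seven (addSum (goldbach n) E') X φ₁ (fun v => v.1 / 2) hf1 hne hp
      (fun a b ha hb h => Or.inl (hR1 a b ha hb h)) (fun v hv => ?_)
    obtain ⟨e1, e2⟩ := hv1 v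
    rcases Nat.eq_zero_or_pos (v.1 / 2) with h0 | h0
    · refine ⟨q, hqX, Or.inr ⟨Or.inl ?_, ?_, ?_⟩⟩
      · rw [e1, h0]
        exact hE0
      · rw [e1, h0, hφ₁ q hqn.2, sum_two, zero_add]
        exact ⟨hq, hq2⟩
      · rw [e1, h0, hφ₁ q hqn.2, dist_two']
        have h3 : Nat.dist 0 q = q := by simp [Nat.dist]
        rw [h3]
        exact ⟨hq2, Or.inl hq⟩
    · obtain ⟨b, hb, -, h1, h2⟩ := hS (v.1 / 2) (mem_Icc.2 ⟨h0, e2⟩)
      refine ⟨b, hb, Or.inr ⟨Or.inl ?_, ?_, ?_⟩⟩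
      · rw [e1]
        exact hE1 _ h0 e2 hv
      · rw [e1, hφ₁ b (hXr b hb).2, sum_two]
        exact h1
      · rw [e1, hφ₁ b (hXr b hb).2, dist_two']
        exact h2
  · refine conn_seven (addDiff (nearGoldbach n) E') X φ₂ (fun v => v.1 / 2) hf2 hne hp
      (fun a b ha hb h => Or.inl (hR2 a b ha hb h)) (fun v hv => ?_)
    obtain ⟨e1, e3, e2⟩ := hv2 v
    obtain ⟨b, hb, -, h1, h2⟩ := hD (v.1 / 2) (mem_Icc.2 ⟨e3, e2⟩)
    refine ⟨b, hb, Or.inr ⟨Or.inl ?_, ?_, ?_⟩⟩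
    · rw [e1]
      exact hE1 _ e3 e2 hv
    · rw [e1, hφ₂ b (hXr b hb).1 (hXr b hb).2, dist_two']
      exact h1
    · rw [e1, hφ₂ b (hXr b hb).1 (hXr b hb).2, sum_two]
      exact h2
  · refine conn_seven (addSum (nearGoldbach n) E') X φ₂ (fun v => v.1 / 2) hf2 hne hp
      (fun a b ha hb h => Or.inl (hR2 a b ha hb h)) (fun v hv => ?_)
    obtain ⟨e1, e3, e2⟩ := hv2 v
    obtain ⟨b, hb, -, h1, h2⟩ := hS (v.1 / 2) (mem_Icc.2 ⟨e3, e2⟩)
    refine ⟨b, hb, Or.inr ⟨Or.inl ?_, ?_, ?_⟩⟩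
    · rw [e1]
      exact hE1 _ e3 e2 hv
    · rw [e1, hφ₂ b (hXr b hb).1 (hXr b hb).2, sum_two]
      exact h1
    · rw [e1, hφ₂ b (hXr b hb).1 (hXr b hb).2, dist_two']
      exact h2

/-- For all `U` and all large `n` there is a set `E` of at most `n / (log n) ^ U` numbers such that, for every
set `E'` which contains `E`, the finite Goldbach graph `G_n` and the finite near Goldbach graph `G(n)` with
the additional edges at the vertices in `E'` (of the first or of the second kind) are connected, and all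
distances are at most `7`. -/
theorem result : ∀ U : ℕ, ∃ N : ℕ, ∀ n : ℕ, N ≤ n → ∃ E : Finset ℕ, (E.card : ℝ) ≤ n / Real.log n ^ U ∧
    ∀ E' : Set ℕ, (E : Set ℕ) ⊆ E' →
      Seven (addDiff (goldbach n) E') ∧ Seven (addSum (goldbach n) E') ∧
      Seven (addDiff (nearGoldbach n) E') ∧ Seven (addSum (nearGoldbach n) E') :=
  main Pool.Agent.E8helper28.GB.x5

end Pool.Agent.Results.MP_443e5f_co.AllVerticesH28
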