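import Pool.Agent.E8helper28.GN.Gn2

/-!
# The number of common neighbours of almost all `r`-tuples of vertices of the finite Goldbach graphs (helper28)

The vertex `2 a` of `G_n` is represented by `a`.
-/

set_option autoImplicit false

namespace Pool.Agent.Results.MP_443e5f_co.CommonNeighboursH28

open Finset

/-- `m` is an odd prime less than `2 n`. -/
def OddPrimeBelow (n m : ℕ) : Prop := m.Prime ∧ Odd m ∧ m < 2 * n

/-- The vertices `2 a` and `2 x` of the finite Goldbach graph `G_n` are adjacent. -/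
def Adj (n a x : ℕ) : Prop := a ≠ x ∧ OddPrimeBelow n (a + x) ∧ OddPrimeBelow n (Nat.dist a x)

open Classical in
/-- The number of the common neighbours `2 x` of the vertices `2 a 1, ..., 2 a r` of `G_n` with `x ∈ M`,
`y₁ < x ≤ y₂`. -/
noncomputable def commonCount {r : ℕ} (n : ℕ) (a : Fin r → ℕ) (M : Set ℕ) (y₁ y₂ : ℕ) : ℕ :=
  ((Ioc y₁ y₂).filter (fun x : ℕ => x ∈ M ∧ ∀ i, Adj n (a i) x)).card

open Classical in
/-- The number of the `x ∈ M` with `y₁ < x ≤ y₂` such that no `a i + x` and no `|a i - x|` is divisible by a prime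
`p ≤ z`. -/
noncomputable def roughCount {r : ℕ} (z : ℕ) (a : Fin r → ℕ) (M : Set ℕ) (y₁ y₂ : ℕ) : ℕ :=
  ((Ioc y₁ y₂).filter (fun x : ℕ => x ∈ M ∧ ∀ i, ∀ p : ℕ, p.Prime → p ≤ z → ¬ p ∣ a i + x ∧ ¬ p ∣ Nat.dist (a i) x)).card

/-- `∏_{p ≤ z} (1 - 1 / p)`, the density of the integers without prime factors `≤ z`. -/
noncomputable def V (z : ℕ) : ℝ := ∏ p ∈ (Icc 1 z).filter Nat.Prime, (1 - 1 / (p : ℝ))

/-- For every one of the sets `M l` and every window `y₁ < x ≤ y₂` with `y₂ ≤ n` which contains at least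
`n / log ^ K n` elements `x` of `M l` such that the numbers `a i + x` and `|a i - x|` have no prime factor `≤ z`,
the proportion of these elements for which `2 x` is a common neighbour of all `2 a i` is `1 / (V z log n) ^ (2 r)`,
up to a relative error of at most `ε`. -/
def Relative (ε : ℝ) (K n z : ℕ) {r m : ℕ} (M : Fin m → Set ℕ) (a : Fin r → ℕ) : Prop :=
  ∀ l : Fin m, ∀ y₁ y₂ : ℕ, y₁ ≤ y₂ → y₂ ≤ n → (n : ℝ) / Real.log n ^ K ≤ roughCount z a (M l) y₁ y₂ →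
    |(commonCount n a (M l) y₁ y₂ : ℝ) - roughCount z a (M l) y₁ y₂ / (V z * Real.log n) ^ (2 * r)| ≤
      ε * (roughCount z a (M l) y₁ y₂ / (V z * Real.log n) ^ (2 * r))

/-- For every prime `p` some residue class `c` modulo `p` is such that `p` divides no `c + a i` and no `c - a i`. -/
def Compatible {r : ℕ} (a : Fin r → ℕ) : Prop :=
  ∀ p : ℕ, p.Prime → ∃ c : ℤ, ∀ i, ¬ (p : ℤ) ∣ c + a i ∧ ¬ (p : ℤ) ∣ c - a i

/-- The factor at `p` of the singular series: `(1 - ν / p) / (1 - 1 / p) ^ (2 r)`, `ν` the number of the residue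
classes `c` modulo `p` with `p ∣ c + a i` or `p ∣ c - a i` for some `i`. -/
noncomputable def localFactor {r : ℕ} (a : Fin r → ℕ) (p : ℕ) : ℝ :=
  (1 - (((range p).filter (fun c : ℕ => ∃ i, (p : ℤ) ∣ (c : ℤ) + a i ∨ (p : ℤ) ∣ (c : ℤ) - a i)).card : ℝ) / p) /
    (1 - 1 / (p : ℝ)) ^ (2 * r)

/-- The number of the common neighbours in every window `y₁ < x ≤ y₂` with `y₂ ≤ n` and
`y₂ - y₁ ≥ n / log ^ K n` is `S (y₂ - y₁) / log ^ (2 r) n`, up to a relative error of at most `ε`; the singular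
series `S` is the product of the local factors. -/
def HardyLittlewood (ε : ℝ) (K n : ℕ) {r : ℕ} (a : Fin r → ℕ) : Prop :=
  ∃ S : ℝ, 0 < S ∧
    Filter.Tendsto (fun z : ℕ => ∏ p ∈ (Icc 1 z).filter Nat.Prime, localFactor a p) Filter.atTop (nhds S) ∧
    ∀ y₁ y₂ : ℕ, y₁ ≤ y₂ → y₂ ≤ n → (n : ℝ) / Real.log n ^ K ≤ (y₂ : ℝ) - y₁ →
      |(commonCount n a Set.univ y₁ y₂ : ℝ) - S * ((y₂ : ℝ) - y₁) / Real.log n ^ (2 * r)| ≤
        ε * (S * ((y₂ : ℝ) - y₁) / Real.log n ^ (2 * r))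

open Pool.Agent.TH935.TG
open Pool.Agent.TH935.TF (Adm Gz Fq om Dist Loc loc_of badF Gz_low)
open Pool.Agent.H373R2.T7 (pz mem_pz Vz Vz_pos ev_L' ev_log' Vz_inv_small)
open Pool.Agent.E8helper28.LN
open Pool.Agent.E8helper28.GN

lemma dist_natAbs (a x : ℕ) : ((x : ℤ) + -(a : ℤ)).natAbs = Nat.dist a x := by
  unfold Nat.dist
  omega

open Classical in
/-- the set of the integers with prime values is the set of the common neighbours, up to at most `3 r` elements -/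
lemma prime_eq {r : ℕ} (n : ℕ) (a : Fin r → ℕ) (ha : ∀ i, a i ≤ n) (M : Set ℕ) (y₁ y₂ : ℕ) (hY : y₂ ≤ n) :
    commonCount n a M y₁ y₂ ≤ cnM (one1 (r * 2)) (vv a) (win ((Ioc 0 (1 * n)).filter (· ∈ M)) y₁ y₂) ∧
    cnM (one1 (r * 2)) (vv a) (win ((Ioc 0 (1 * n)).filter (· ∈ M)) y₁ y₂) ≤ commonCount n a M y₁ y₂ + 3 * r := by
  have hmem : ∀ x, x ∈ (win ((Ioc 0 (1 * n)).filter (· ∈ M)) y₁ y₂).filter (fun x : ℕ => ∀ i, (one1 (r * 2) i * (x : ℤ) + vv a i).natAbs.Prime) ↔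
      (y₁ < x ∧ x ≤ y₂) ∧ x ∈ M ∧ ∀ j, (a j + x).Prime ∧ (Nat.dist (a j) x).Prime := by
    intro x
    unfold win one1
    rw [mem_filter, mem_filter, mem_filter, mem_Ioc]
    simp only [one_mul]
    rw [vv_forall a (fun s => ((x : ℤ) + s).natAbs.Prime)]
    have e : ∀ j, ((x : ℤ) + (a j : ℤ)).natAbs = a j + x := fun j => by omega
    simp only [e, dist_natAbs]
    constructor
    · rintro ⟨⟨⟨h1, h2⟩, h3⟩, h4⟩
      exact ⟨h3, h2, h4⟩
    · rintro ⟨h3, h2, h4⟩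
      exact ⟨⟨⟨⟨by omega, by omega⟩, h2⟩, h3⟩, h4⟩
  have hsub : ((Ioc y₁ y₂).filter (fun x : ℕ => x ∈ M ∧ ∀ i, Adj n (a i) x)) ⊆
      (win ((Ioc 0 (1 * n)).filter (· ∈ M)) y₁ y₂).filter (fun x : ℕ => ∀ i, (one1 (r * 2) i * (x : ℤ) + vv a i).natAbs.Prime) := by
    intro x hx
    rw [mem_filter, mem_Ioc] at hx
    rw [hmem]
    exact ⟨hx.1, hx.2.1, fun j => ⟨(hx.2.2 j).2.1.1, (hx.2.2 j).2.2.1⟩⟩
  constructor
  · unfold commonCount cnM
    exact card_le_card hsub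
  · unfold commonCount cnM
    have hsub2 : (win ((Ioc 0 (1 * n)).filter (· ∈ M)) y₁ y₂).filter (fun x : ℕ => ∀ i, (one1 (r * 2) i * (x : ℤ) + vv a i).natAbs.Prime) ⊆
        ((Ioc y₁ y₂).filter (fun x : ℕ => x ∈ M ∧ ∀ i, Adj n (a i) x)) ∪
        (univ : Finset (Fin r)).biUnion (fun j => ({2 - a j, a j + 2, a j - 2} : Finset ℕ)) := by
      intro x hx
      rw [hmem] at hx
      obtain ⟨h1, h2, h3⟩ := hx
      rw [mem_union]
      by_cases h4 : ∀ i, Adj n (a i) x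
      · left
        rw [mem_filter, mem_Ioc]
        exact ⟨h1, h2, h4⟩
      · right
        push Not at h4
        obtain ⟨j, hj⟩ := h4
        rw [mem_biUnion]
        refine ⟨j, mem_univ _, ?_⟩
        rw [mem_insert, mem_insert, mem_singleton]
        obtain ⟨p1, p2⟩ := h3 j
        have hdist : Nat.dist (a j) x = (a j - x) + (x - a j) := rfl
        by_contra hcon
        push Not at hcon
        obtain ⟨c1, c2, c3⟩ := hcon
        apply hj
        have haj := ha j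
        have d0 := p2.two_le
        have e1 : a j + x ≠ 2 := by omega
        have e2 : Nat.dist (a j) x ≠ 2 := by omega
        have o1 : Odd (a j + x) := p1.odd_of_ne_two e1
        have o2 : Odd (Nat.dist (a j) x) := p2.odd_of_ne_two e2
        refine ⟨by omega, ⟨p1, o1, ?_⟩, ⟨p2, o2, by omega⟩⟩
        obtain ⟨t, ht⟩ := o1
        omega
    refine (card_le_card hsub2).trans ((card_union_le _ _).trans ?_)
    apply Nat.add_le_add_left
    refine card_biUnion_le.trans ?_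
    calc ∑ j : Fin r, (({2 - a j, a j + 2, a j - 2} : Finset ℕ)).card ≤ ∑ _j : Fin r, 3 := sum_le_sum fun j _ => card_le_three
      _ = 3 * r := by rw [sum_const, card_univ, Fintype.card_fin, smul_eq_mul, mul_comm]

open Classical in
lemma rough_eq {r : ℕ} (n z : ℕ) (a : Fin r → ℕ) (M : Set ℕ) (y₁ y₂ : ℕ) (hY : y₂ ≤ n) :
    roughCount z a M y₁ y₂ = rgM (one1 (r * 2)) (vv a) z (win ((Ioc 0 (1 * n)).filter (· ∈ M)) y₁ y₂) := by
  unfold roughCount rgM win one1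
  rw [filter_filter, filter_filter]
  congr 1
  ext x
  rw [mem_filter, mem_filter, mem_Ioc, mem_Ioc]
  simp only [one_mul]
  rw [vv_forall a (fun s => ∀ p ∈ pz z, ¬ (p : ℤ) ∣ (x : ℤ) + s)]
  have e1 : ∀ (p : ℕ) j, (p : ℤ) ∣ (x : ℤ) + (a j : ℤ) ↔ p ∣ a j + x := by
    intro p j
    rw [← Int.natCast_dvd_natCast]
    push_cast
    rw [add_comm]
  have e2 : ∀ (p : ℕ) j, (p : ℤ) ∣ (x : ℤ) + -(a j : ℤ) ↔ p ∣ Nat.dist (a j) x := by
    intro p j
    rw [← dist_natAbs, Int.natCast_dvd]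
  simp only [e1, e2]
  constructor
  · rintro ⟨⟨h1, h2⟩, h3, h4⟩
    exact ⟨⟨by omega, by omega⟩, h3, ⟨h1, h2⟩, fun j => ⟨fun p hp => (h4 j p (mem_pz.1 hp).2 (mem_pz.1 hp).1).1,
      fun p hp => (h4 j p (mem_pz.1 hp).2 (mem_pz.1 hp).1).2⟩⟩
  · rintro ⟨_, h3, ⟨h1, h2⟩, h4⟩
    exact ⟨⟨h1, h2⟩, h3, fun j p hp1 hp2 => ⟨(h4 j).1 p (mem_pz.2 ⟨hp2, hp1⟩), (h4 j).2 p (mem_pz.2 ⟨hp2, hp1⟩)⟩⟩

lemma V_eq (z : ℕ) : V z = Vz z := rfl

lemma Gz_eq1 {r : ℕ} (a : Fin r → ℕ) :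
    (fun z : ℕ => Gz (om (one1 (r * 2)) (vv a)) (r * 2) z) = (fun z : ℕ => ∏ p ∈ (Icc 1 z).filter Nat.Prime, localFactor a p) := by
  funext z
  unfold Gz Fq om localFactor one1
  simp only [one_mul]
  refine prod_congr rfl fun p _ => ?_
  have e : (range p).filter (fun c : ℕ => ∃ i, (p : ℤ) ∣ (c : ℤ) + vv a i) =
      (range p).filter (fun c : ℕ => ∃ i, (p : ℤ) ∣ (c : ℤ) + a i ∨ (p : ℤ) ∣ (c : ℤ) - a i) := by
    ext c
    rw [mem_filter, mem_filter]
    apply and_congr_right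
    intro _
    have h := vv_forall a (fun s => ¬ (p : ℤ) ∣ (c : ℤ) + s)
    rw [← not_iff_not]
    push Not
    rw [h]
    simp only [← sub_eq_add_neg]
  rw [e, Nat.mul_comm r 2]

lemma adm_eq {r : ℕ} (a : Fin r → ℕ) (h : Compatible a) : Adm (one1 (r * 2)) (vv a) := by
  intro p hp
  obtain ⟨c, hc⟩ := h p hp
  refine ⟨c, ?_⟩
  unfold one1
  simp only [one_mul]
  rw [vv_forall a (fun s => ¬ (p : ℤ) ∣ c + s)]
  intro j
  rw [← sub_eq_add_neg]
  exact hc j

lemma hb1_mono {k : ℕ} {τ : Type} (ε ε' : ℝ) (K K' B N z : ℕ) (𝒩 : τ → Finset ℕ) (a : Fin k → ℤ) (hε : ε ≤ ε') (hK : K' ≤ K)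
    (hL : 1 ≤ Real.log N) (h : HB1 ε K B N z 𝒩 a) : HB1 ε' K' B N z 𝒩 a := by
  intro l y₁ y₂ h12 hy2 hR
  have h1 : (N : ℝ) / Real.log N ^ K ≤ N / Real.log N ^ K' := by
    apply div_le_div_of_nonneg_left (Nat.cast_nonneg _) (by positivity)
    exact pow_le_pow_right₀ hL hK
  refine (h l y₁ y₂ h12 hy2 (h1.trans hR)).trans ?_
  apply mul_le_mul_of_nonneg_right hε
  have := Vz_pos z
  positivity

/-- a small change of the count -/
lemma close (c d x t ε : ℝ) (h1 : c ≤ d) (h2 : d ≤ c + t) (h3 : |d - x| ≤ ε / 2 * x) (h4 : t ≤ ε / 2 * x) : |c - x| ≤ ε * x := by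
  rw [abs_le] at h3 ⊢
  constructor <;> linarith [h3.1, h3.2]

open Classical in
/-- **The number of common neighbours.** Let `r ≥ 1`, let `E` be large in terms of `r, T, U, K, ε` and `n` large in
terms of all of them. Let `M 1, ..., M m`, `m ≤ log ^ T n`, be arbitrary sets of integers. Then all but at most
`n ^ r / log ^ U n` of the `r`-tuples `(2 a 1, ..., 2 a r)` of vertices `2, 4, ..., 2 n` of `G_n` satisfy: the
statement `Relative` for the sets `M l` with `z = ⌊log ^ E n⌋` and, if the vertices are distinct and compatible,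
the formula `HardyLittlewood` for the number of their common neighbours in all windows. -/
theorem result (r T U K : ℕ) (hr : 1 ≤ r) (ε : ℝ) (hε : 0 < ε) : ∃ E₀ : ℕ, ∀ E : ℕ, E₀ ≤ E → ∃ n₀ : ℕ, ∀ n : ℕ, n₀ ≤ n →
    ∀ m : ℕ, (m : ℝ) ≤ Real.log n ^ T → ∀ M : Fin m → Set ℕ,
      (((Fintype.piFinset (fun _ : Fin r => Icc 1 n)).filter
        (fun a => ¬ (Relative ε K n ⌊Real.log n ^ E⌋₊ M a ∧
          (Function.Injective a → Compatible a → HardyLittlewood ε K n a)))).card : ℝ) ≤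
        (n : ℝ) ^ r / Real.log n ^ U := by
  obtain ⟨ε', hε'⟩ : ∃ ε' : ℝ, ε' = ε / 2 := ⟨_, rfl⟩
  have hε0 : 0 < ε' := by rw [hε']; exact half_pos hε
  have hmin : 0 < min ε' 1 / 4 := by
    have : 0 < min ε' 1 := lt_min hε0 zero_lt_one
    linarith
  have hmin2 : min ε' 1 / 4 ≤ ε' := by
    have := min_le_left ε' 1
    have : 0 < min ε' 1 := lt_min hε0 zero_lt_one
    linarith
  obtain ⟨E0, h0⟩ := win_gn Pool.Agent.E8helper28.GB.u3 r (T + 1) U (K + r * 2 + 2) hr (min ε' 1 / 4) hmin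
  obtain ⟨c, hc, hlow⟩ := Gz_low (r * 2) (by omega)
  refine ⟨E0 + 3, fun E hE => ?_⟩
  obtain ⟨n0, h1⟩ := h0 E (by omega)
  obtain ⟨n1, h2⟩ := hl_det (r * 2) 1 K E (by omega) (by omega) ε' hε0
  obtain ⟨n2, h3⟩ := ev_L' 2
  obtain ⟨n3, h4⟩ := ev_log' (K + 2 * r) (6 * r / ε + 6 * r / (ε * c))
  refine ⟨n0 + n1 + n2 + n3 + 2, fun n hn m hm M => ?_⟩
  have hL := h3 n (by omega)
  have hbig := h4 n (by omega)
  have hnr : (2 : ℝ) ≤ n := by exact_mod_cast (by omega : 2 ≤ n)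
  have hn0 : (0 : ℝ) < n := by linarith
  have hsn : √(n : ℝ) ≤ n := by
    rw [Real.sqrt_le_left hn0.le]
    nlinarith
  have key := h1 n (by omega) (Option (Fin m)) (by
      rw [Fintype.card_option, Fintype.card_fin, pow_succ]
      push_cast
      have h5 : 1 ≤ Real.log n ^ T := one_le_pow₀ (by linarith)
      nlinarith) (fun l : Option (Fin m) => (Ioc 0 (1 * n)).filter (· ∈ (l.elim Set.univ M : Set ℕ)))
      (fun l => filter_subset _ _)
  refine le_trans ?_ key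
  rw [Nat.cast_le]
  apply card_le_card
  intro a ha
  rw [mem_filter] at ha
  obtain ⟨ha1, ha3⟩ := ha
  have haN : ∀ i, 1 ≤ a i ∧ a i ≤ n := fun i => mem_Icc.1 (Fintype.mem_piFinset.1 ha1 i)
  have h3r : (0 : ℝ) ≤ 3 * r := by positivity
  -- `3 r` is small
  have hsm : ∀ κ : ℝ, 0 < κ → 6 * r / (ε * κ) ≤ 6 * r / ε + 6 * r / (ε * c) →
      3 * (r : ℝ) ≤ ε / 2 * (κ * (n / Real.log n ^ (K + 2 * r))) := by
    intro κ hκ hk
    have hpos : 0 < Real.log n ^ (K + 2 * r) := pow_pos (by linarith) _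
    have e1 : 6 * r / (ε * κ) * Real.log n ^ (K + 2 * r) ≤ n :=
      (mul_le_mul_of_nonneg_right hk hpos.le).trans (hbig.trans hsn)
    have e2 : 6 * (r : ℝ) ≤ ε * κ * (n / Real.log n ^ (K + 2 * r)) := by
      have e3 : 6 * (r : ℝ) = (ε * κ) * (6 * r / (ε * κ) * Real.log n ^ (K + 2 * r)) / Real.log n ^ (K + 2 * r) := by
        field_simp
      rw [e3, mul_div_assoc]
      apply mul_le_mul_of_nonneg_left _ (by positivity)
      exact div_le_div_of_nonneg_right e1 hpos.le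
    linarith
  have q1 : 0 ≤ 6 * (r : ℝ) / ε := by positivity
  have q2 : 0 ≤ 6 * (r : ℝ) / (ε * c) := by positivity
  rw [mem_filter]
  refine ⟨ha1, fun hHB => ha3 ⟨?_, fun hinj hcomp => ?_⟩⟩
  · -- the relative statement
    have hHB' := hb1_mono _ ε' _ K _ _ _ _ _ hmin2 (by omega) (by linarith) hHB
    intro l y₁ y₂ h12 hy2 hR
    have h5 := hHB' (some l) y₁ y₂ h12 (by omega)
    obtain ⟨p1, p2⟩ := prime_eq n a (fun i => (haN i).2) (M l) y₁ y₂ hy2
    rw [rough_eq n _ a (M l) y₁ y₂ hy2] at hR ⊢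
    rw [V_eq, Nat.mul_comm 2 r]
    obtain ⟨z, hz⟩ : ∃ z : ℕ, z = ⌊Real.log n ^ E⌋₊ := ⟨_, rfl⟩
    rw [← hz] at hR h5 ⊢
    have h6 := h5 hR
    have p1r : ((commonCount n a (M l) y₁ y₂ : ℕ) : ℝ) ≤
        (cnM (one1 (r * 2)) (vv a) (win ((Ioc 0 (1 * n)).filter (· ∈ M l)) y₁ y₂) : ℝ) := by exact_mod_cast p1
    have p2r : (cnM (one1 (r * 2)) (vv a) (win ((Ioc 0 (1 * n)).filter (· ∈ M l)) y₁ y₂) : ℝ) ≤
        ((commonCount n a (M l) y₁ y₂ : ℕ) : ℝ) + 3 * r := by exact_mod_cast p2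
    refine close _ _ _ _ ε p1r p2r (by rw [← hε']; exact h6) ?_
    refine (hsm 1 one_pos (by rw [mul_one]; linarith)).trans ?_
    apply mul_le_mul_of_nonneg_left _ (by linarith)
    rw [one_mul]
    have hV1 := Vz_le_one z
    have hV0 := Vz_pos z
    have hLp : 0 < Real.log n := by linarith
    calc (n : ℝ) / Real.log n ^ (K + 2 * r) = (n / Real.log n ^ K) / Real.log n ^ (r * 2) := by
          rw [Nat.mul_comm 2 r, pow_add, div_div]
      _ ≤ (n / Real.log n ^ K) / (Vz z * Real.log n) ^ (r * 2) := by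
          apply div_le_div_of_nonneg_left (by positivity) (by positivity)
          apply pow_le_pow_left₀ (by positivity)
          exact mul_le_of_le_one_left hLp.le hV1
      _ ≤ _ := div_le_div_of_nonneg_right hR (by positivity)
  · -- the formula
    have hvinj := vv_inj a hinj (fun i => (haN i).1)
    have hadm := adm_eq a hcomp
    have hHL := h2 n (by omega) (vv a) (vv_le a n (fun i => (haN i).2)) hvinj hadm (Option (Fin m)) _ none (by
      ext x
      rw [mem_filter]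
      exact ⟨fun h => h.1, fun h => ⟨h, Set.mem_univ _⟩⟩) hHB
    obtain ⟨S, s1, s2, s3⟩ := hHL
    have hdist : Dist (one1 (r * 2)) (vv a) := by
      intro i j hij
      refine ⟨fun h => hij (hvinj h.2), fun h => ?_⟩
      have := h.1
      unfold one1 at this
      norm_num at this
    have hloc : Loc (om (one1 (r * 2)) (vv a)) (r * 2) (badF (one1 (r * 2)) (vv a)) :=
      loc_of hadm hdist (fun i => by unfold one1; norm_num)
    have hcS : c ≤ S := ge_of_tendsto' s2 (fun z => hlow _ _ hloc z)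
    refine ⟨S, s1, by rw [← Gz_eq1]; exact s2, fun y₁ y₂ h12 hy2 hW => ?_⟩
    have h5 := s3 y₁ y₂ h12 (by omega) hW
    obtain ⟨p1, p2⟩ := prime_eq n a (fun i => (haN i).2) Set.univ y₁ y₂ hy2
    have e : ∀ (inst : DecidablePred (· ∈ (Set.univ : Set ℕ))),
        @Finset.filter ℕ (· ∈ (Set.univ : Set ℕ)) inst (Ioc 0 (1 * n)) = Ioc 0 (1 * n) := by
      intro inst
      ext x
      rw [mem_filter]
      exact ⟨fun h => h.1, fun h => ⟨h, Set.mem_univ _⟩⟩
    rw [e] at p1 p2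
    rw [Nat.mul_comm 2 r]
    have p1r : ((commonCount n a Set.univ y₁ y₂ : ℕ) : ℝ) ≤
        (cnM (one1 (r * 2)) (vv a) (win (Ioc 0 (1 * n)) y₁ y₂) : ℝ) := by exact_mod_cast p1
    have p2r : (cnM (one1 (r * 2)) (vv a) (win (Ioc 0 (1 * n)) y₁ y₂) : ℝ) ≤
        ((commonCount n a Set.univ y₁ y₂ : ℕ) : ℝ) + 3 * r := by exact_mod_cast p2
    refine close _ _ _ _ ε p1r p2r (by rw [← hε']; exact h5) ?_
    refine (hsm c hc (by linarith)).trans ?_
    apply mul_le_mul_of_nonneg_left _ (by linarith)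
    have hLp : 0 < Real.log n := by linarith
    calc c * ((n : ℝ) / Real.log n ^ (K + 2 * r)) = c * (n / Real.log n ^ K) / Real.log n ^ (r * 2) := by
          rw [Nat.mul_comm 2 r, pow_add]
          field_simp
      _ ≤ S * ((y₂ : ℝ) - y₁) / Real.log n ^ (r * 2) := by
          apply div_le_div_of_nonneg_right _ (by positivity)
          exact mul_le_mul hcS hW (by positivity) s1.le

end Pool.Agent.Results.MP_443e5f_co.CommonNeighboursH28
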