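import Pool.Agent.E8helper66.GB.Fin
import Pool.Agent.E8helper66.GB.U3
import Pool.Agent.E8helper66.GB.Estw
import Pool.Agent.E8helper66.GB.Quad
import Pool.Agent.E8helper77.GB.Rec
import Pool.Agent.E8helper64.GB.Rel
import Pool.Agent.E8helper23.GB.Core
import Pool.Agent.E8helper64.GB.Pig
import Pool.Agent.E8helper62.GB.CS
import Pool.Agent.E8helper97.GB.CST
import Pool.Agent.E8helper75.GB.Tii
import Pool.Agent.E8helper97.GB.TI2
import Pool.Agent.E8helper77.GB.Lam
import Pool.Agent.E8helper70.GB.LZ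
import Pool.Agent.E8helper81.GB.Est
import Pool.Agent.E8helper64.GB.Est3
import Pool.Agent.E8helper54.GB.Loc
import Pool.Agent.E8helper98.GB.Two
import Pool.Agent.E8helper77.GB.Loc3
import Pool.Agent.E8helper98.GB.Br
import Pool.Agent.E8helper28.GB.Five
import Pool.Agent.R521.GG.Fin
import Pool.Agent.R521.GG.Mert
import Pool.Agent.R521.GG.B
import Pool.Agent.R521.GG.Mom
import Pool.Agent.R521.GG.Codeg
import Pool.Agent.R521.GG.Wsum
import Pool.Agent.R906.GG.Gold
import Pool.Agent.R906.GG.Twin

/-!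
# The Goldbach graphs have diameter exactly five after the removal of few vertices

There is an absolute constant `c > 0` such that for all `U` and all large `n` the finite Goldbach graph
`G_n` and the finite near Goldbach graph `G(n)` both have the following property. After the removal of at
most `n / (log n) ^ U` vertices the graph is connected, its diameter is exactly five and all its degrees are
at least `c n / (log n) ^ 2`. Moreover any two vertices with more than `n / (log n) ^ U` neighbours are at a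
distance of at most seven.
-/

set_option autoImplicit false

namespace Pool.Agent.Results.MP_443e5f_co.DiameterFiveH66

/-- `m` is an odd prime less than `2 n`. -/
def OddPrimeBelow (n m : ℕ) : Prop := m.Prime ∧ Odd m ∧ m < 2 * n

/-- The finite Goldbach graph `G_n` on `{0, 2, 4, …, 2 n}`: distinct `a`, `b` are adjacent iff
`(a + b)/2` and `|a - b|/2` are odd primes less than `2 n`. -/
def goldbach (n : ℕ) : SimpleGraph {a : ℕ // Even a ∧ a ≤ 2 * n} where
  Adj a b := a ≠ b ∧ OddPrimeBelow n (((a : ℕ) + b) / 2) ∧ OddPrimeBelow n (Nat.dist a b / 2)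
  symm := ⟨fun a b h => ⟨h.1.symm, by rw [add_comm (b : ℕ)]; exact h.2.1,
    by rw [Nat.dist_comm]; exact h.2.2⟩⟩
  loopless := ⟨fun _ h => h.1 rfl⟩

/-- The finite near Goldbach graph `G(n)` on `{2, 4, …, 2 n}`: distinct `a`, `b` are adjacent iff
each of `(a + b)/2` and `|a - b|/2` is `1` or an odd prime less than `2 n`. -/
def nearGoldbach (n : ℕ) : SimpleGraph {a : ℕ // Even a ∧ 2 ≤ a ∧ a ≤ 2 * n} where
  Adj a b := a ≠ b ∧ (((a : ℕ) + b) / 2 = 1 ∨ OddPrimeBelow n (((a : ℕ) + b) / 2)) ∧
    (Nat.dist a b / 2 = 1 ∨ OddPrimeBelow n (Nat.dist a b / 2))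
  symm := ⟨fun a b h => ⟨h.1.symm, by rw [add_comm (b : ℕ)]; exact h.2.1,
    by rw [Nat.dist_comm]; exact h.2.2⟩⟩
  loopless := ⟨fun _ h => h.1 rfl⟩

/-- (i) There is a set `X` of vertices of `G`, which contains all the vertices with at most `n / (log n) ^ U`
exceptions, such that the subgraph induced on `X` is connected, has diameter (the largest distance, in the
subgraph, of two vertices of `X`) exactly five, and every vertex of `X` has at least `c n / (log n) ^ 2`
neighbours in `X`. (ii) Any two vertices of `G` with more than `n / (log n) ^ U` neighbours are at a distance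
of at most seven in `G`. -/
def DiameterFive {V : Type} (G : SimpleGraph V) (c : ℝ) (U n : ℕ) : Prop :=
  (∃ X : Set V, (Xᶜ.ncard : ℝ) ≤ n / Real.log n ^ U ∧ (G.induce X).Connected ∧ (G.induce X).ediam = 5 ∧
    ∀ u : X, c * (n / Real.log n ^ 2) ≤ (((G.induce X).neighborSet u).ncard : ℝ)) ∧
  ∀ u v : V, (n : ℝ) / Real.log n ^ U < ((G.neighborSet u).ncard : ℝ) →
    (n : ℝ) / Real.log n ^ U < ((G.neighborSet v).ncard : ℝ) → G.edist u v ≤ 7

open E8helper66.GB in
/-- For every `U` and all large `n` both graphs have the property `DiameterFive`, with an absolute constant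
`c > 0`. -/
theorem result : ∃ c : ℝ, 0 < c ∧ ∀ U : ℕ, ∃ N : ℕ, ∀ n : ℕ, N ≤ n →
    DiameterFive (goldbach n) c U n ∧ DiameterFive (nearGoldbach n) c U n := by
  have hPIG := E8helper64.GB.t_PIG
  have hREC := E8helper77.GB.t_REC
  have hCORE := E8helper23.GB.t_CORE hREC (E8helper64.GB.t_REL hREC) t_QUAD
  have hTII := E8helper75.GB.t_TII E8helper62.GB.t_CS hCORE hPIG E8helper97.GB.t_CST
  have hTI := E8helper97.GB.t_TI hPIG
  have hU3 := t_U3 (E8helper77.GB.t_LAM hTII hTI) (E8helper70.GB.t_LZ hTII hTI)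
  have hW := t_ESTW (E8helper81.GB.t_EST hU3)
  have hTWO := E8helper98.GB.t_TWO hW E8helper54.GB.t_LOC
  have hBR := E8helper98.GB.t_BR hW (E8helper64.GB.t_EST3 hU3) E8helper77.GB.t_LOC3
  have hFIVE := E8helper28.GB.t_FIVE hTWO hBR
  obtain ⟨c, K, hc, -, hm⟩ := R521.GG.main R521.GG.t_mom (R521.GG.t_codeg R521.GG.t_mert)
    (R521.GG.t_wsum R521.GG.t_mert) R906.GGF.t_gold R906.GGG.t_twin R521.GG.t_peel
  refine final hFIVE ⟨c, hc, fun U => ?_⟩
  obtain ⟨n₀, h0⟩ := hm U
  refine ⟨n₀, fun n hn => ?_⟩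
  obtain ⟨X, hX, h1, h2, -⟩ := h0 n hn
  exact ⟨X, hX, h1, h2⟩

end Pool.Agent.Results.MP_443e5f_co.DiameterFiveH66
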